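import Pool.Agent.U363.AM.B
import Pool.Agent.U363.PV.R
import Pool.Agent.N965.LN.Cnt
import Pool.Agent.N965.LN.Ks
import Pool.Agent.N965.LN.Sch

/-!
# Montgomery's conjecture on Weyl sums at the multiples of an algebraic number

Let `α` be a real algebraic irrational number, `k ≥ 3` and `t₀` any real number. We consider the Weyl
sums `∑_{n ≤ N} e(t n ^ k + ξ n)` at the leading coefficients `t = t₀ + m α`, `m < M`, with the
supremum over all real `ξ`. Their fourth moment is `O(N ^ 3 M + N ^ (k + 1 + ε) M ^ ε)`, uniformly in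
`t₀`. So for `k ≥ 4`, `M ≥ N ^ (k - 3 + 4 / k)` the inequality of `H_k(1/k)` holds, with constant `1`,
for all real `ξ` and all `q` at once, for all but `O(M N ^ (-3 ε))` of the `m < M`.

Method. The supremum over `ξ` is removed as in the library (`Pool.Agent.W928.MW.sup`). The fourth
moment leads to the sum of `min (M, 1 / (2 ‖h α‖))` over the values
`h = x₁ ^ k + x₂ ^ k - y₁ ^ k - y₂ ^ k`, `x₁ + x₂ = y₁ + y₂`. The value `0` is taken by the at most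
`2 N ^ 2` diagonal solutions only, and every other value at most `8 k τ(|h|) ^ 2` times: `x₁ - y₁` and
`x₁ - y₂` divide `h`, and given these divisors `y₁` is a zero of a polynomial of degree `k - 2`
(`card_rep`). The sum of `min (M, 1 / (2 ‖h α‖))` over `1 ≤ h ≤ H` is `O(H M ^ ε)` by Roth's theorem.
-/

set_option autoImplicit false

namespace Pool.Agent.Results.MP_3b0be2_nt.AlgebraicMultiples

open Finset

/-- The Weyl sum `∑_{1 ≤ n ≤ N} e(t n ^ k + ξ n)`. -/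
noncomputable def weylSum (k N : ℕ) (t ξ : ℝ) : ℂ :=
  ∑ n ∈ Finset.Icc 1 N, Complex.exp (2 * (Real.pi : ℂ) * Complex.I *
    (((t * (n : ℝ) ^ k + ξ * (n : ℝ)) : ℝ) : ℂ))

/-- The inequality of `H_k(1/k)` for the length `N` at the leading coefficient `t`, with the constant
`1`, for all real `ξ` and all `q ≥ 1`. -/
def MontgomeryAt (k N : ℕ) (ε t : ℝ) : Prop :=
  ∀ (ξ : ℝ) (q : ℕ), 1 ≤ q → ‖weylSum k N t ξ‖ ≤
    (N : ℝ) ^ (1 + ε) * (1 / (q : ℝ) + 1 / (N : ℝ) + (q : ℝ) / (N : ℝ) ^ k) ^ (1 / (k : ℝ))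

/-- **Montgomery's conjecture on Weyl sums at the multiples of an algebraic number.** Let `α` be a
real algebraic irrational number.

(1) Let `k ≥ 3` and `ε > 0`. There is `C` such that for all `N, M ≥ 1`, all real `t₀` and all real
`ξ_m`, `∑_{m < M} |∑_{n ≤ N} e((t₀ + m α) n ^ k + ξ_m n)| ^ 4 ≤ C (N ^ 3 M + N ^ (k + 1 + ε) M ^ ε)`.

(2) Let `k ≥ 4` and `ε > 0`. There is `C` such that for all `N ≥ 1`, `M ≥ N ^ (k - 3 + 4 / k)` and all
real `t₀` the inequality of `H_k(1/k)` with the constant `1` holds at `t = t₀ + m α` for all real `ξ`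
and all `q ≥ 1`, for all `m < M` but at most `C M N ^ (-3 ε)`. -/
theorem result (α : ℝ) (hα : Irrational α) (hα' : IsAlgebraic ℚ α) :
    (∀ k : ℕ, 3 ≤ k → ∀ ε : ℝ, 0 < ε → ∃ C : ℝ, 0 < C ∧ ∀ N M : ℕ, 1 ≤ N → 1 ≤ M →
      ∀ (t₀ : ℝ) (ξ : ℕ → ℝ),
        ∑ m ∈ Finset.range M, ‖weylSum k N (t₀ + (m : ℝ) * α) (ξ m)‖ ^ 4 ≤
          C * ((N : ℝ) ^ 3 * M + (N : ℝ) ^ ((k : ℝ) + 1 + ε) * (M : ℝ) ^ ε)) ∧
    (∀ k : ℕ, 4 ≤ k → ∀ ε : ℝ, 0 < ε → ∃ C : ℝ, 0 < C ∧ ∀ N M : ℕ, 1 ≤ N →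
      (N : ℝ) ^ ((k : ℝ) - 3 + 4 / k) ≤ M → ∀ t₀ : ℝ,
        ({m : ℕ | m < M ∧ ¬ MontgomeryAt k N ε (t₀ + (m : ℝ) * α)}.ncard : ℝ) ≤
          C * M * (N : ℝ) ^ (-(3 * ε))) := by
  classical
  have hK : Pool.Agent.N965.LN.Ksum (fun _ : Fin 1 => α) :=
    Pool.Agent.N965.LN.t_KS 1 _ (Pool.Agent.N965.LN.t_CNT 1 _ (Pool.Agent.N965.LN.t_SCH 1 _ le_rfl
      (fun _ => hα') (Pool.Agent.U363.PV.indep_one hα)))
  have h4 : ∀ k : ℕ, 3 ≤ k → ∀ ε : ℝ, 0 < ε → ∃ C : ℝ, 0 < C ∧ ∀ N M : ℕ, 1 ≤ N → 1 ≤ M →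
      ∀ (t₀ : ℝ) (ξ : ℕ → ℝ),
        ∑ m ∈ Finset.range M, ‖weylSum k N (t₀ + (m : ℝ) * α) (ξ m)‖ ^ 4 ≤
          C * ((N : ℝ) ^ 3 * M + (N : ℝ) ^ ((k : ℝ) + 1 + ε) * (M : ℝ) ^ ε) :=
    fun k hk ε hε => Pool.Agent.U363.AM.four hK k hk ε hε
  refine ⟨h4, fun k hk ε hε => ?_⟩
  have hk0 : (4 : ℝ) ≤ k := by exact_mod_cast hk
  set ε' : ℝ := min (ε / k) (1 / 2) with hε'
  have hε'0 : 0 < ε' := lt_min (by positivity) (by norm_num)
  have hε'1 : ε' ≤ 1 / 2 := min_le_right _ _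
  have hε'2 : ε' * k ≤ ε := by
    have h1 : ε' ≤ ε / k := min_le_left _ _
    rwa [le_div_iff₀ (by linarith)] at h1
  obtain ⟨C, hC, hmom⟩ := h4 k (by omega) ε' hε'0
  refine ⟨2 * C, by positivity, fun N M hN hNM t₀ => ?_⟩
  have hN1 : (1 : ℝ) ≤ N := by exact_mod_cast hN
  have hN0 : (0 : ℝ) < N := by linarith
  have h4k : 4 / (k : ℝ) ≤ 1 := by
    rw [div_le_one (by linarith)]
    exact hk0
  have h4k0 : 0 < 4 / (k : ℝ) := by positivity
  set θ : ℝ := (k : ℝ) - 3 + 4 / k with hθ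
  have hθ0 : 0 ≤ θ := by rw [hθ]; linarith
  have hM1 : (1 : ℝ) ≤ M := (Real.one_le_rpow hN1 hθ0).trans hNM
  have hM0 : (0 : ℝ) < M := by linarith
  have hM : 1 ≤ M := by exact_mod_cast hM1
  set E : Finset ℕ := (range M).filter (fun m => ¬ MontgomeryAt k N ε (t₀ + (m : ℝ) * α)) with hE
  have hset : {m : ℕ | m < M ∧ ¬ MontgomeryAt k N ε (t₀ + (m : ℝ) * α)} = (E : Set ℕ) := by
    ext m
    rw [hE, mem_coe, mem_filter, mem_range]
    rfl
  rw [hset, Set.ncard_coe_finset]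
  set V : ℝ := (N : ℝ) ^ (1 + ε - 1 / k) with hV
  have hV0 : 0 < V := by positivity
  have hex : ∀ m ∈ E, ∃ ξ : ℝ, V ≤ ‖weylSum k N (t₀ + (m : ℝ) * α) ξ‖ := by
    intro m hm
    rw [hE, mem_filter] at hm
    have h1 := hm.2
    unfold MontgomeryAt at h1
    push Not at h1
    obtain ⟨ξ, q, hq, h2⟩ := h1
    refine ⟨ξ, le_trans ?_ h2.le⟩
    have hq0 : (0 : ℝ) < q := by exact_mod_cast hq
    have h3 : (1 / (N : ℝ)) ^ (1 / (k : ℝ)) ≤
        (1 / (q : ℝ) + 1 / (N : ℝ) + (q : ℝ) / (N : ℝ) ^ k) ^ (1 / (k : ℝ)) := by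
      apply Real.rpow_le_rpow (by positivity) _ (by positivity)
      have e1 : 0 ≤ 1 / (q : ℝ) := by positivity
      have e2 : 0 ≤ (q : ℝ) / (N : ℝ) ^ k := by positivity
      linarith
    have h5 : V = (N : ℝ) ^ (1 + ε) * (1 / (N : ℝ)) ^ (1 / (k : ℝ)) := by
      rw [hV, one_div (N : ℝ), Real.inv_rpow hN0.le, ← Real.rpow_neg hN0.le, ← Real.rpow_add hN0]
      congr 1
    rw [h5]
    exact mul_le_mul_of_nonneg_left h3 (by positivity)
  choose! f hf using hex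
  have h1 := hmom N M hN hM t₀ f
  have h2 : (E.card : ℝ) * V ^ 4 ≤ ∑ m ∈ range M, ‖weylSum k N (t₀ + (m : ℝ) * α) (f m)‖ ^ 4 := by
    rw [← nsmul_eq_mul]
    refine (card_nsmul_le_sum E _ (V ^ 4) fun m hm => ?_).trans
      (sum_le_sum_of_subset_of_nonneg (filter_subset _ _) fun m _ _ => by positivity)
    exact pow_le_pow_left₀ hV0.le (hf m hm) 4
  set W : ℝ := (N : ℝ) ^ (4 - 4 / (k : ℝ) + ε) with hW
  have hW0 : 0 < W := by positivity
  have h3 : (N : ℝ) ^ 3 * M ≤ M * W := by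
    rw [mul_comm]
    apply mul_le_mul_of_nonneg_left _ hM0.le
    rw [hW, ← Real.rpow_natCast]
    apply Real.rpow_le_rpow_of_exponent_le hN1
    push_cast
    linarith
  have h5 : (N : ℝ) ^ ((k : ℝ) + 1 + ε') * (M : ℝ) ^ ε' ≤ M * W := by
    have e1 : (M : ℝ) ^ ε' = M * (M : ℝ) ^ (ε' - 1) := by
      rw [Real.rpow_sub hM0, Real.rpow_one]
      field_simp
    have e2 : (M : ℝ) ^ (ε' - 1) ≤ ((N : ℝ) ^ θ) ^ (ε' - 1) :=
      Real.rpow_le_rpow_of_nonpos (by positivity) hNM (by linarith)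
    have e3 : (N : ℝ) ^ ((k : ℝ) + 1 + ε') * ((N : ℝ) ^ θ) ^ (ε' - 1) ≤ W := by
      rw [← Real.rpow_mul hN0.le, ← Real.rpow_add hN0, hW]
      apply Real.rpow_le_rpow_of_exponent_le hN1
      have e4 : ε' * (1 + θ) ≤ ε' * k := by
        apply mul_le_mul_of_nonneg_left _ hε'0.le
        rw [hθ]
        linarith
      have e5 : (k : ℝ) + 1 + ε' + θ * (ε' - 1) = (k : ℝ) + 1 - θ + ε' * (1 + θ) := by ring
      rw [e5]
      have e6 : (k : ℝ) + 1 - θ = 4 - 4 / (k : ℝ) := by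
        rw [hθ]
        ring
      rw [e6]
      linarith
    calc (N : ℝ) ^ ((k : ℝ) + 1 + ε') * (M : ℝ) ^ ε' =
          M * ((N : ℝ) ^ ((k : ℝ) + 1 + ε') * (M : ℝ) ^ (ε' - 1)) := by
          rw [e1]
          ring
      _ ≤ M * ((N : ℝ) ^ ((k : ℝ) + 1 + ε') * ((N : ℝ) ^ θ) ^ (ε' - 1)) := by
          apply mul_le_mul_of_nonneg_left _ hM0.le
          exact mul_le_mul_of_nonneg_left e2 (by positivity)
      _ ≤ M * W := mul_le_mul_of_nonneg_left e3 hM0.le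
  have h6 : (E.card : ℝ) * V ^ 4 ≤ 2 * C * M * W := by
    refine h2.trans (h1.trans ?_)
    have := mul_le_mul_of_nonneg_left (add_le_add h3 h5) hC.le
    linarith
  have h7 : W = (N : ℝ) ^ (-(3 * ε)) * V ^ 4 := by
    rw [hW, hV, ← Real.rpow_natCast ((N : ℝ) ^ (1 + ε - 1 / (k : ℝ))) 4, ← Real.rpow_mul hN0.le,
      ← Real.rpow_add hN0]
    congr 1
    push_cast
    ring
  rw [h7] at h6
  have h8 : (E.card : ℝ) * V ^ 4 ≤ (2 * C * M * (N : ℝ) ^ (-(3 * ε))) * V ^ 4 := by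
    linarith
  exact le_of_mul_le_mul_right h8 (by positivity)

end Pool.Agent.Results.MP_3b0be2_nt.AlgebraicMultiples
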