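import Pool.Agent.U922.MV.E

set_option autoImplicit false

/-!
# MP_3b0be2_nt: Montgomery's conjecture on Weyl sums, uniformly in the lower-order terms

Let `1 ≤ d ≤ k - 2`. For almost every real `t` and every `ε > 0` there is `C` with
`|∑_{n ≤ N} e(t n^k + P(n))| ≤ C N^(1 - 1/(d+2) + ε)` for all `N ≥ 1` and ALL real polynomials `P` of degree at most `d`. For
`d = k - 2` this is Montgomery's exponent `1 - 1/k`, uniformly in all terms of degree at most `k - 2`; for `d = 1` it is `2/3`.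
The set of the `t` at which the bound `C N^θ` fails, uniformly in the `P` of degree at most `d`, has Hausdorff dimension at most
`1 - ((d+1)(d+2) θ - (d+1)^2) / k`; the leading coefficients at which the inequality of `H_k(1/k)` fails for some `ε > 0` form
a set of dimension at most `1 - (d+1)(k-d-2) / k^2`.

Means: decoupling for the curve `(x, ..., x^d, x^k)` with `(d+1)(d+2)` variables, deduced from the decoupling for the moment
curve of degree `d + 1` (class by class: the exact equations of degrees `1, ..., d, k` give the equation of degree `d + 1`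
modulo `p^b` after rescaling a class modulo `p^b` of units); a supremum over the lower-order terms; a maximal inequality.
-/

namespace Pool.Agent.Results.MP_3b0be2_nt.AllLowerOrderTerms

open Finset MeasureTheory Pool.Agent.U922.MV

/-- the Weyl sum `∑_{n ≤ N} e(t n^k + P(n))` -/
noncomputable def weylSum (k N : ℕ) (t : ℝ) (P : Polynomial ℝ) : ℂ :=
  ∑ n ∈ Icc 1 N, Complex.exp (2 * Real.pi * Complex.I * (t * (n : ℝ) ^ k + P.eval (n : ℝ) : ℝ))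

/-- the leading coefficients `t` such that for no constant `C` the bound `|weylSum k N t P| ≤ C N^θ` holds for all `N ≥ 1`
and all real polynomials `P` of degree at most `d` -/
def Exc (k d : ℕ) (θ : ℝ) : Set ℝ :=
  {t : ℝ | ¬ ∃ C : ℝ, ∀ N : ℕ, 1 ≤ N → ∀ P : Polynomial ℝ, P.natDegree ≤ d → ‖weylSum k N t P‖ ≤ C * (N : ℝ) ^ θ}

/-- the leading coefficients `t` such that for some `ε > 0` and no constant `C` the inequality of `H_k(1/k)` holds for all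
`N ≥ 2`, all real `ξ` and all coprime `1 ≤ a < q ≤ N` with `|t - a/q| ≤ 1/q^2` -/
def ExcAll (k : ℕ) : Set ℝ :=
  {t : ℝ | ∃ ε : ℝ, 0 < ε ∧ ¬ ∃ C : ℝ, ∀ N : ℕ, 2 ≤ N → ∀ ξ : ℝ, ∀ a q : ℕ, 1 ≤ a → a < q → q ≤ N → Nat.Coprime a q →
    |t - (a : ℝ) / q| ≤ 1 / (q : ℝ) ^ 2 →
    ‖∑ n ∈ Icc 1 N, Complex.exp (2 * Real.pi * Complex.I * (t * (n : ℝ) ^ k + ξ * n : ℝ))‖ ≤
      C * (N : ℝ) ^ (1 + ε) * (1 / (q : ℝ) + 1 / (N : ℝ) + (q : ℝ) / (N : ℝ) ^ k) ^ (1 / (k : ℝ))}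

lemma eval_lo (m : ℕ) (P : Polynomial ℝ) (hP : P.natDegree ≤ m) (x : ℝ) :
    P.eval x = P.coeff 0 + lo m (fun j : Fin m => P.coeff ((j : ℕ) + 1)) x := by
  rw [Polynomial.eval_eq_sum_range' (by omega : P.natDegree < m + 1), Finset.sum_range_succ']
  unfold lo
  rw [pow_zero, mul_one, add_comm, Fin.sum_univ_eq_sum_range (fun j => P.coeff (j + 1) * x ^ (j + 1)) m]

lemma weyl_sp (k m N : ℕ) (t : ℝ) (P : Polynomial ℝ) (hP : P.natDegree ≤ m) :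
    ‖weylSum k N t P‖ = ‖sp k m N t (fun j : Fin m => P.coeff ((j : ℕ) + 1))‖ := by
  have h1 : weylSum k N t P = Pool.Agent.W928.MW.e (P.coeff 0) * sp k m N t (fun j : Fin m => P.coeff ((j : ℕ) + 1)) := by
    unfold sp
    rw [Finset.mul_sum]
    unfold weylSum
    refine Finset.sum_congr rfl fun n _ => ?_
    rw [← Pool.Agent.W928.MW.e_add, eval_lo m P hP]
    unfold Pool.Agent.W928.MW.e
    congr 2
    push_cast
    ring
  rw [h1, norm_mul, Pool.Agent.W928.MW.e_norm, one_mul]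

lemma exc_sub (k m : ℕ) (θ : ℝ) : Exc k m θ ⊆ XV k m θ := by
  intro t ht hC
  obtain ⟨C, h⟩ := hC
  apply ht
  refine ⟨C, fun N hN P hP => ?_⟩
  rw [weyl_sp k m N t P hP]
  exact h N hN _

lemma weyl_le (k N : ℕ) (t : ℝ) (P : Polynomial ℝ) : ‖weylSum k N t P‖ ≤ N := by
  rw [weyl_sp k P.natDegree N t P le_rfl]
  exact sp_le _ _ _ _ _

lemma exc_big (k d : ℕ) (θ : ℝ) (hθ : 1 ≤ θ) : Exc k d θ = ∅ := by
  ext t
  constructor
  · intro ht
    refine absurd ⟨1, fun N hN P _ => ?_⟩ ht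
    have hN' : (1 : ℝ) ≤ (N : ℝ) := by exact_mod_cast hN
    refine (weyl_le k N t P).trans ?_
    rw [one_mul]
    calc (N : ℝ) = (N : ℝ) ^ (1 : ℝ) := (Real.rpow_one _).symm
      _ ≤ (N : ℝ) ^ θ := Real.rpow_le_rpow_of_exponent_le hN' hθ
  · intro ht
    exact absurd ht (Set.notMem_empty t)

lemma exc_mono (k d : ℕ) {θ θ' : ℝ} (h : θ ≤ θ') : Exc k d θ' ⊆ Exc k d θ := by
  intro t ht hC
  apply ht
  obtain ⟨C, hB⟩ := hC
  refine ⟨|C|, fun N hN P hP => (hB N hN P hP).trans ?_⟩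
  have hN1 : (1 : ℝ) ≤ (N : ℝ) := by exact_mod_cast hN
  have h2 : (N : ℝ) ^ θ ≤ (N : ℝ) ^ θ' := Real.rpow_le_rpow_of_exponent_le hN1 h
  calc C * (N : ℝ) ^ θ ≤ |C| * (N : ℝ) ^ θ := mul_le_mul_of_nonneg_right (le_abs_self C) (by positivity)
    _ ≤ |C| * (N : ℝ) ^ θ' := mul_le_mul_of_nonneg_left h2 (abs_nonneg C)

lemma null_of (s : Set ℝ) (x : ℝ) (hx : x < 1) (h : dimH s ≤ ENNReal.ofReal x) : volume s = 0 := by
  have h1 : (volume : Measure ℝ) ≪ Measure.hausdorffMeasure (((1 : NNReal) : ℝ)) := by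
    rw [NNReal.coe_one, hausdorffMeasure_real]
  refine measure_zero_of_dimH_lt h1 (lt_of_le_of_lt h ?_)
  rw [ENNReal.coe_one]
  calc ENNReal.ofReal x < ENNReal.ofReal 1 := (ENNReal.ofReal_lt_ofReal_iff one_pos).mpr hx
    _ = 1 := ENNReal.ofReal_one

/-- the main term of `H_k(1/k)` is at least `N^(1 - 1/k + ε)` -/
lemma main_ge (k N q : ℕ) (ε : ℝ) (hk : 2 ≤ k) (hN : 1 ≤ N) :
    (N : ℝ) ^ (1 - 1 / (k : ℝ) + ε) ≤ (N : ℝ) ^ (1 + ε) *
      (1 / (q : ℝ) + 1 / (N : ℝ) + (q : ℝ) / (N : ℝ) ^ k) ^ (1 / (k : ℝ)) := by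
  have hN' : (1 : ℝ) ≤ (N : ℝ) := by exact_mod_cast hN
  have hk0 : (0 : ℝ) < (k : ℝ) := by
    have : (2 : ℝ) ≤ (k : ℝ) := by exact_mod_cast hk
    linarith
  have h1 : (N : ℝ) ^ (1 - 1 / (k : ℝ) + ε) = (N : ℝ) ^ (1 + ε) * (1 / (N : ℝ)) ^ (1 / (k : ℝ)) := by
    rw [Real.div_rpow (by norm_num) (by positivity), Real.one_rpow, mul_one_div, ← Real.rpow_sub (by positivity)]
    congr 1
    ring
  rw [h1]
  apply mul_le_mul_of_nonneg_left _ (by positivity)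
  apply Real.rpow_le_rpow (by positivity) _ (by positivity)
  have h2 : 0 ≤ 1 / (q : ℝ) + (q : ℝ) / (N : ℝ) ^ k := by positivity
  linarith

lemma all_sub (k d : ℕ) (hk : 2 ≤ k) (hd : 1 ≤ d) :
    ExcAll k ⊆ ⋃ n : ℕ, Exc k d (1 - 1 / (k : ℝ) + 1 / ((n : ℝ) + 1)) := by
  rintro t ⟨ε, hε, ht⟩
  obtain ⟨n, hn⟩ := exists_nat_one_div_lt hε
  rw [Set.mem_iUnion]
  refine ⟨n, fun hC => ht ?_⟩
  obtain ⟨C, hB⟩ := hC
  refine ⟨|C|, fun N hN ξ a q _ _ _ _ _ => ?_⟩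
  have hN1 : (1 : ℝ) ≤ (N : ℝ) := by exact_mod_cast (by omega : 1 ≤ N)
  have h1 := hB N (by omega) (Polynomial.C ξ * Polynomial.X)
    ((Polynomial.natDegree_C_mul_le ξ Polynomial.X).trans (Polynomial.natDegree_X_le.trans hd))
  have h2 : weylSum k N t (Polynomial.C ξ * Polynomial.X) =
      ∑ n ∈ Icc 1 N, Complex.exp (2 * Real.pi * Complex.I * (t * (n : ℝ) ^ k + ξ * n : ℝ)) := by
    unfold weylSum
    refine Finset.sum_congr rfl fun n _ => ?_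
    rw [Polynomial.eval_mul, Polynomial.eval_C, Polynomial.eval_X]
  rw [h2] at h1
  refine h1.trans ?_
  have h3 : (N : ℝ) ^ (1 - 1 / (k : ℝ) + 1 / ((n : ℝ) + 1)) ≤ (N : ℝ) ^ (1 - 1 / (k : ℝ) + ε) :=
    Real.rpow_le_rpow_of_exponent_le hN1 (by linarith)
  calc C * (N : ℝ) ^ (1 - 1 / (k : ℝ) + 1 / ((n : ℝ) + 1))
      ≤ |C| * (N : ℝ) ^ (1 - 1 / (k : ℝ) + 1 / ((n : ℝ) + 1)) :=
        mul_le_mul_of_nonneg_right (le_abs_self C) (by positivity)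
    _ ≤ |C| * ((N : ℝ) ^ (1 + ε) * (1 / (q : ℝ) + 1 / (N : ℝ) + (q : ℝ) / (N : ℝ) ^ k) ^ (1 / (k : ℝ))) :=
        mul_le_mul_of_nonneg_left (h3.trans (main_ge k N q ε hk (by omega))) (abs_nonneg C)
    _ = _ := by ring

/-- **Montgomery's conjecture for Weyl sums, uniformly in the lower-order terms, outside small sets of leading coefficients.** -/
theorem result (k d : ℕ) (hd : 1 ≤ d) (hdk : d + 2 ≤ k) :
    (∀ᵐ t : ℝ, ∀ ε : ℝ, 0 < ε → ∃ C : ℝ, ∀ N : ℕ, 1 ≤ N → ∀ P : Polynomial ℝ, P.natDegree ≤ d →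
      ‖weylSum k N t P‖ ≤ C * (N : ℝ) ^ (1 - 1 / ((d : ℝ) + 2) + ε)) ∧
    (∀ θ : ℝ, 0 < θ → θ ≤ 1 →
      dimH (Exc k d θ) ≤ ENNReal.ofReal (1 - (((d : ℝ) + 1) * (d + 2) * θ - ((d : ℝ) + 1) ^ 2) / k)) ∧
    dimH (ExcAll k) ≤ ENNReal.ofReal (1 - ((d : ℝ) + 1) * ((k : ℝ) - d - 2) / (k : ℝ) ^ 2) := by
  have hd1 : (1 : ℝ) ≤ (d : ℝ) := by exact_mod_cast hd
  have hdk' : (d : ℝ) + 2 ≤ (k : ℝ) := by exact_mod_cast hdk
  have hk0 : (0 : ℝ) < (k : ℝ) := by linarith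
  have P2 : ∀ θ : ℝ, 0 < θ → θ ≤ 1 →
      dimH (Exc k d θ) ≤ ENNReal.ofReal (1 - (((d : ℝ) + 1) * (d + 2) * θ - ((d : ℝ) + 1) ^ 2) / k) :=
    fun θ hθ0 hθ1 => (dimH_mono (exc_sub k d θ)).trans (dimV k d hd hdk θ hθ0 hθ1)
  refine ⟨?_, P2, ?_⟩
  · have hd2 : (0 : ℝ) < (d : ℝ) + 2 := by linarith
    have hd3 : 1 / ((d : ℝ) + 2) ≤ 1 / 3 := one_div_le_one_div_of_le (by norm_num) (by linarith)
    have hnull : ∀ n : ℕ, volume (Exc k d (1 - 1 / ((d : ℝ) + 2) + 1 / ((n : ℝ) + 1))) = 0 := by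
      intro n
      have hn : (0 : ℝ) < 1 / ((n : ℝ) + 1) := by positivity
      rcases le_or_gt 1 (1 - 1 / ((d : ℝ) + 2) + 1 / ((n : ℝ) + 1)) with h1 | h1
      · rw [exc_big k d _ h1]
        exact measure_empty
      · have h2 := P2 _ (by linarith : 0 < 1 - 1 / ((d : ℝ) + 2) + 1 / ((n : ℝ) + 1)) h1.le
        refine null_of _ _ ?_ h2
        have h5 : ((d : ℝ) + 1) * (d + 2) * (1 - 1 / ((d : ℝ) + 2) + 1 / ((n : ℝ) + 1)) - ((d : ℝ) + 1) ^ 2 =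
            ((d : ℝ) + 1) * (d + 2) * (1 / ((n : ℝ) + 1)) := by
          field_simp
          ring
        rw [h5]
        have h7 : 0 < ((d : ℝ) + 1) * (d + 2) * (1 / ((n : ℝ) + 1)) / k := by positivity
        linarith
    have hall : volume (⋃ n : ℕ, Exc k d (1 - 1 / ((d : ℝ) + 2) + 1 / ((n : ℝ) + 1))) = 0 :=
      measure_iUnion_null hnull
    have hae : ∀ᵐ t : ℝ, t ∉ ⋃ n : ℕ, Exc k d (1 - 1 / ((d : ℝ) + 2) + 1 / ((n : ℝ) + 1)) :=
      measure_eq_zero_iff_ae_notMem.1 hall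
    filter_upwards [hae] with t ht ε hε
    by_contra hcon
    apply ht
    obtain ⟨n, hn⟩ := exists_nat_one_div_lt hε
    rw [Set.mem_iUnion]
    exact ⟨n, exc_mono k d (by linarith : 1 - 1 / ((d : ℝ) + 2) + 1 / ((n : ℝ) + 1) ≤
      1 - 1 / ((d : ℝ) + 2) + ε) hcon⟩
  · have hk1 : 1 / (k : ℝ) ≤ 1 / 3 := one_div_le_one_div_of_le (by norm_num) (by linarith)
    refine (dimH_mono (all_sub k d (by omega) hd)).trans ?_
    rw [dimH_iUnion]
    apply iSup_le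
    intro n
    have hn : (0 : ℝ) < 1 / ((n : ℝ) + 1) := by positivity
    obtain ⟨θ, hθ⟩ : ∃ θ : ℝ, θ = 1 - 1 / (k : ℝ) + 1 / ((n : ℝ) + 1) := ⟨_, rfl⟩
    rw [← hθ]
    rcases le_or_gt 1 θ with h1 | h1
    · rw [exc_big k d θ h1, dimH_empty]
      exact zero_le
    · have h2 := P2 θ (by rw [hθ]; linarith) h1.le
      refine h2.trans (ENNReal.ofReal_le_ofReal ?_)
      have h4 : ((d : ℝ) + 1) * ((k : ℝ) - d - 2) / (k : ℝ) ^ 2 =
          (((d : ℝ) + 1) * (d + 2) * (1 - 1 / (k : ℝ)) - ((d : ℝ) + 1) ^ 2) / k := by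
        field_simp; ring
      have h6 : ((d : ℝ) + 1) * (d + 2) * (1 - 1 / (k : ℝ)) ≤ ((d : ℝ) + 1) * (d + 2) * θ :=
        mul_le_mul_of_nonneg_left (by rw [hθ]; linarith) (by positivity)
      have h7 : ((d : ℝ) + 1) * ((k : ℝ) - d - 2) / (k : ℝ) ^ 2 ≤
          (((d : ℝ) + 1) * (d + 2) * θ - ((d : ℝ) + 1) ^ 2) / k := by
        rw [h4]
        exact div_le_div_of_nonneg_right (by linarith) hk0.le
      linarith

end Pool.Agent.Results.MP_3b0be2_nt.AllLowerOrderTerms
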