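import Pool.Agent.U536.CF.MW
import Pool.Agent.Results.MP_3b0be2_nt.AlmostAllPrimeModuli

/-!
# Montgomery's bound for Weyl sums modulo all primes near integers with a large common factor with a value of a
multiplicative function, for all lengths

Let `f` be a positive multiplicative function of at most polynomial growth such that `f p ≤ M p` for the large primes
`p`, with different values at different large primes; for example Euler's function or the sum of the divisors. Let `G`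
have steps bounded below by a positive constant and growth at most `v^d`, for example `α v^d`. Let `B < 1` and `0 ≤ c <
2 B - 1`. Let `k ≥ 4`, `0 < ε ≤ 1`, `κ ≥ 0` and `2 d / k + κ < ρ ≤ 1`. For all large `N` and every real `t`, for all `m
≤ N` but `N exp (-(log N)^c)`, for EVERY integer `w ≥ exp ((log N)^B)` with `gcd(w, f(m)) ≥ w^ρ` and EVERY prime `q`
with `|q - G w| ≤ w ^ κ`, the inequality of the hypothesis `H_k(1/k)` holds, with the constant `4`, at `t + b / q` for
ALL `1 ≤ b < q`, ALL lengths `M ≥ (2 q)^(1 + 2 / k)` and ALL real `ξ`; the bound `N ≥ N₀` does not depend on `t`. More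
generally, for `k ≥ 2` and `0 < η ≤ 1 / 4`, `d (2 η) + κ < ρ ≤ 1`: the sums of `a_n e(P(n) / q + ξ n)` over all `u < n ≤
v ≤ M` are at most `4 M^(1 + ε) q^(-η)` for all `M ≥ (2 q)^(1 + 2 η)`, all `ξ` and all polynomials `P` of degree `≤ k`
which are not linear modulo `q`, for any bounded sequence `a_n` given in advance (`|a_n| ≤ 1`; the bound for `N` does
not depend on it). The integers `w` include all large divisors of `f(m)` and their multiples by small integers; for
Euler's function, the orders of the elements of the group of units modulo `m`.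

Proof. The file `AlmostAllPrimeModuli` of the starting library bounds the number of the exceptional pairs `(q, P)`, `Q <
q ≤ 2 Q`, for ONE length `M` by `2 (2 Q)^(2 η) M^(-2 ε)`. Summing over the lengths `M = 2^j` one gets the primes which
are exceptional for some length: at most `C (2 Q)^(2 η)` of the primes in `(Q, 2 Q]`. Write `m = k' u` with `u`
squarefree and composed of primes larger than `N^(1/J)`, `J = (log N)^s`, and `k' ≤ exp (4 (log N)^s)`; this is possible
for all `m ≤ N` but very few. If `v ∣ f(k') f(u)`, then the number of such `u ≤ N / k'` is at most `N / (k' v')` times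
`(log N)^O(J)` times the number `τ_J(v')` of the ordered factorizations of `v'` into `J` factors, `v' = v / gcd(v,
f(k'))`. The inequality `τ_J^q ≤ τ_K` for `K ≥ J^q` and Hölder's inequality bound the sum over the sparse set of the
exceptional `v`. The large divisors of the values of multiplicative functions form a set of density zero and are taken
with very large multiplicities, and so the theorem does not follow from the count of the exceptional primes alone.
-/

set_option autoImplicit false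

namespace Pool.Agent.Results.MP_3b0be2_nt.CommonFactors

open Pool.Agent.N733.TG (LM Expanding lm_totient lm_sigma expanding_pow)
open Pool.Agent.U536.CF (WeylBound WeylCount weyl_scale MontgomeryAt weylWeight norm_weylWeight montgomery_of_weyl
  Common common_scale_nat common_of_dvd common_order)

/-- the general statement -/
lemma general (k : ℕ) (hk : 2 ≤ k) (η ε : ℝ) (hη : 0 < η) (hη4 : η ≤ 1 / 4) (hε : 0 < ε) (hε1 : ε ≤ 1) (f : ℕ → ℕ)
    (hf : LM f) (G : ℕ → ℝ) (d : ℝ) (hG : Expanding G d) :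
    ∀ κ ρ B c : ℝ, 0 ≤ κ → d * (2 * η) + κ < ρ → ρ ≤ 1 → B < 1 → 0 ≤ c → c < 2 * B - 1 →
      ∃ N₀ : ℕ, ∀ N : ℕ, N₀ ≤ N → ∀ a : ℕ → ℂ, (∀ n, ‖a n‖ ≤ 1) →
        ({m : ℕ | 1 ≤ m ∧ m ≤ N ∧ ¬ ∀ w : ℕ, Common f B ρ N m w → ∀ q : ℕ, q.Prime → |(q : ℝ) - G w| ≤ (w : ℝ) ^ κ →
          WeylBound k η ε a q}.ncard : ℝ) ≤ N * Real.exp (-(Real.log N ^ c)) := by
  intro κ ρ B c hκ h1 hρ hB hc hcb
  obtain ⟨N₀, h0⟩ := AlmostAllPrimeModuli.result.2.1 k hk η hη.le hη4 ε hε
  obtain ⟨N₁, hN₁⟩ := common_scale_nat (s := 2 * η) (C := 2 * (1 - (4 : ℝ) ^ (-ε))⁻¹ + 1) (by linarith) (2 * N₀ + 2) 0 hf hG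
    hκ h1 hρ hB hc hcb
  refine ⟨N₁, fun N hN a ha => ?_⟩
  have key := hN₁ (fun N q => N < 2 * q ∧ q.Prime ∧ ¬ WeylBound k η ε a q) (fun q => q.Prime ∧ ¬ WeylBound k η ε a q)
    (fun M hM => weyl_scale hη.le hε hε1 h0 a ha M hM) (fun n M _ _ _ h2 h3 => ⟨h2, h3⟩) N hN
  refine le_trans (le_of_eq ?_) key
  congr 2
  ext m
  simp only [Set.mem_ofPred_eq]
  refine and_congr_right fun _ => and_congr_right fun _ => not_congr (forall_congr' fun w => forall_congr' fun _ => ?_)
  constructor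
  · rintro h q _ h2 ⟨h3, h4⟩
    exact h4 (h q h3 h2)
  · intro h q h1 h2
    by_contra h3
    exact h q h1.one_lt.le h2 ⟨h1, h3⟩

/-- **Montgomery's bound for Weyl sums modulo all primes near integers with a large common factor with a value of a
multiplicative function, for all lengths.** Let `f` be multiplicative and positive, of at most polynomial growth, with
`f p ≤ M p` at the large primes, and injective there (`LM`). Let `G` have steps `≥ a > 0` and growth at most `v^d`. Let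
`B < 1`, `0 ≤ c < 2 B - 1`, `κ ≥ 0`. (1) Let `k ≥ 2`, `0 < η ≤ 1 / 4`, `0 < ε ≤ 1` and `d (2 η) + κ < ρ ≤ 1`. For all
large `N`, for all sequences `a_n` of complex numbers with `|a_n| ≤ 1`, for all `m ≤ N` but `N exp (-(log N)^c)`, for
EVERY integer `w ≥ exp ((log N)^B)` with `gcd(w, f(m)) ≥ w^ρ` and EVERY prime `q` with `|q - G w| ≤ w ^ κ`: `WeylBound k
η ε a q`. (2) Let `k ≥ 4`, `0 < ε ≤ 1` and `2 d / k + κ < ρ ≤ 1`. For all large `N` and all real `t`, for all `m ≤ N`
but `N exp (-(log N)^c)`, for EVERY such `w` and EVERY prime `q` with `|q - G w| ≤ w ^ κ`: `MontgomeryAt k ε t q`. All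
divisors `w ≥ exp ((log N)^B)` of `f(m)` are such integers `w`, and for Euler's function the orders `≥ exp ((log N)^B)`
of the units modulo `m`. Euler's function and the sum of the divisors are examples of `f`, and `α v^d` with `α > 0`, `d
≥ 1` is an example of `G`. -/
theorem result :
    (∀ k : ℕ, 2 ≤ k → ∀ η ε : ℝ, 0 < η → η ≤ 1 / 4 → 0 < ε → ε ≤ 1 → ∀ f : ℕ → ℕ, LM f → ∀ (G : ℕ → ℝ) (d : ℝ),
      Expanding G d → ∀ κ ρ B c : ℝ, 0 ≤ κ → d * (2 * η) + κ < ρ → ρ ≤ 1 → B < 1 → 0 ≤ c → c < 2 * B - 1 →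
      ∃ N₀ : ℕ, ∀ N : ℕ, N₀ ≤ N → ∀ a : ℕ → ℂ, (∀ n, ‖a n‖ ≤ 1) →
        ({m : ℕ | 1 ≤ m ∧ m ≤ N ∧ ¬ ∀ w : ℕ, Common f B ρ N m w → ∀ q : ℕ, q.Prime → |(q : ℝ) - G w| ≤ (w : ℝ) ^ κ →
          WeylBound k η ε a q}.ncard : ℝ) ≤ N * Real.exp (-(Real.log N ^ c))) ∧
    (∀ k : ℕ, 4 ≤ k → ∀ ε : ℝ, 0 < ε → ε ≤ 1 → ∀ f : ℕ → ℕ, LM f → ∀ (G : ℕ → ℝ) (d : ℝ),
      Expanding G d → ∀ κ ρ B c : ℝ, 0 ≤ κ → d * (2 / k) + κ < ρ → ρ ≤ 1 → B < 1 → 0 ≤ c → c < 2 * B - 1 →
      ∃ N₀ : ℕ, ∀ N : ℕ, N₀ ≤ N → ∀ t : ℝ,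
        ({m : ℕ | 1 ≤ m ∧ m ≤ N ∧ ¬ ∀ w : ℕ, Common f B ρ N m w → ∀ q : ℕ, q.Prime → |(q : ℝ) - G w| ≤ (w : ℝ) ^ κ →
          MontgomeryAt k ε t q}.ncard : ℝ) ≤ N * Real.exp (-(Real.log N ^ c))) ∧
    (LM Nat.totient ∧ LM (fun m => ∑ d ∈ m.divisors, d)) ∧
    (∀ α d : ℝ, 0 < α → 1 ≤ d → Expanding (fun v => α * (v : ℝ) ^ d) d) ∧
    (∀ (f : ℕ → ℕ) (B ρ : ℝ) (N m w : ℕ), ρ ≤ 1 → Real.exp (Real.log N ^ B) ≤ (w : ℝ) → w ∣ f m → Common f B ρ N m w) ∧
    ∀ (B ρ : ℝ) (N m : ℕ), ρ ≤ 1 → ∀ x : (ZMod m)ˣ, Real.exp (Real.log N ^ B) ≤ (orderOf x : ℝ) →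
      Common Nat.totient B ρ N m (orderOf x) := by
  refine ⟨fun k hk η ε hη hη4 hε hε1 f hf G d hG => general k hk η ε hη hη4 hε hε1 f hf G d hG, ?_,
    ⟨lm_totient, lm_sigma⟩, fun α d hα hd => expanding_pow hα hd, fun f B ρ N m w hρ hw hd => common_of_dvd hρ hw hd,
    fun B ρ N m hρ x hx => common_order hρ x hx⟩
  intro k hk ε hε hε1 f hf G d hG κ ρ B c hκ h1 hρ hB hc hcb
  have hk4 : (4 : ℝ) ≤ k := by exact_mod_cast hk
  have hk0 : (0 : ℝ) < k := by linarith
  obtain ⟨N₀, hN₀⟩ := general k (by omega) (1 / k) ε (by positivity)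
    (one_div_le_one_div_of_le (by norm_num) hk4) hε hε1 f hf G d hG κ ρ B c hκ (by rwa [mul_one_div]) hρ hB hc hcb
  refine ⟨N₀, fun N hN t => ?_⟩
  refine le_trans ?_ (hN₀ N hN (weylWeight k t) (norm_weylWeight k t))
  refine Nat.cast_le.2 (Set.ncard_le_ncard ?_ ((Set.finite_Icc 1 N).subset fun m hm => ⟨hm.1, hm.2.1⟩))
  rintro m ⟨g1, g2, g3⟩
  exact ⟨g1, g2, fun h => g3 fun w hw q hq hqw => montgomery_of_weyl (by omega) hq.one_lt.le (h w hw q hq hqw)⟩

end Pool.Agent.Results.MP_3b0be2_nt.CommonFactors
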