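import Pool.Agent.U803.MW.Main

/-!
# Montgomery's conjecture for Weyl sums along vanishing random perturbations of the integers

Let `X_1, X_2, ...` be independent and uniformly distributed in `[0,1]`, and `x_n = n + δ_n X_n` with `n^(-κ) ≤ δ_n ≤ 1`.
We prove: almost surely, for all `k ≥ 2` and `0 ≤ η ≤ 1/2` with `(k - 1 - κ)(1 - η) ≥ 1` the hypothesis `H_k(η)` holds
for the points `x_n` in place of the integers `n`: the bound

`|∑_{n ≤ N} e(t x_n^k + ξ x_n)| ≤ C N^(1+ε) (1/q + 1/N + q/N^k)^η`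

is true for all `N`, all arcs `|t - a/q| ≤ 1/q²`, `1 ≤ a < q ≤ N`, and all `|ξ| ≤ N^A` at once (for the integers all `ξ` are
covered by `|ξ| ≤ 1`). In particular the points `n + X_n/√n`, which are asymptotic to the integers, satisfy Montgomery's
conjecture `H_k(1/k)` for ALL `k ≥ 3` simultaneously, and for a single `k` the size `n^(-κ)` of the perturbation may be
as small as `κ = k - 2 - 1/(k-1)`. For `δ_n = 0` this is the problem (last part of the theorem).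

Proof. The sum differs from its expectation by at most `N^(1/2 + ε)`, uniformly in `t`, `ξ`: moments of sums of
independent variables, and a net of polynomially many pairs `(t, ξ)`. The expectation of one term is
`O(1 / (δ_n |f'(n)|))`, `f(x) = t x^k + ξ x`, by the first derivative test; if `y ≥ 0` is the zero of `f'`, then
`|f'(x)| ≥ k t |x - y| x^(k-2)`, and `t ≥ 1/(2q)`, so that the sum of the expectations is
`O(M + q M^(κ-k+2) log N)` for every `M ≥ 1`; we take `M = q^(1/(k-1-κ)) ≤ N q^(-η)`.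
-/

set_option autoImplicit false

namespace Pool.Agent.Results.MP_3b0be2_nt.VanishingPerturbations

open MeasureTheory ProbabilityTheory

/-- **The hypothesis `H_k(η)` for the points `x_1, x_2, ...`** in place of the integers, with `|ξ| ≤ N^A` for an
arbitrary exponent `A`. -/
def HypH (x : ℕ → ℝ) (k : ℕ) (η : ℝ) : Prop :=
  ∀ A : ℕ, ∀ ε : ℝ, 0 < ε → ∃ C : ℝ, 0 < C ∧
    ∀ N : ℕ, 1 ≤ N → ∀ t ξ : ℝ, |ξ| ≤ (N : ℝ) ^ A → ∀ a q : ℕ,
      1 ≤ a → a < q → q ≤ N → Nat.Coprime a q →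
      |t - (a : ℝ) / (q : ℝ)| ≤ 1 / (q : ℝ) ^ 2 →
      ‖∑ n ∈ Finset.Icc 1 N,
          Complex.exp (2 * (Real.pi : ℂ) * Complex.I * (((t * x n ^ k + ξ * x n) : ℝ) : ℂ))‖
        ≤ C * (N : ℝ) ^ (1 + ε) *
          (1 / (q : ℝ) + 1 / (N : ℝ) + (q : ℝ) / (N : ℝ) ^ k) ^ η

/-- `H_k(η)` as in the problem: the integers, and all real `ξ` -/
def HypInt (k : ℕ) (η : ℝ) : Prop :=
  ∀ ε : ℝ, 0 < ε → ∃ C : ℝ, 0 < C ∧
    ∀ N : ℕ, 1 ≤ N → ∀ t ξ : ℝ, ∀ a q : ℕ,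
      1 ≤ a → a < q → q ≤ N → Nat.Coprime a q →
      |t - (a : ℝ) / (q : ℝ)| ≤ 1 / (q : ℝ) ^ 2 →
      ‖∑ n ∈ Finset.Icc 1 N,
          Complex.exp (2 * (Real.pi : ℂ) * Complex.I *
            (((t * (n : ℝ) ^ k + ξ * (n : ℝ)) : ℝ) : ℂ))‖
        ≤ C * (N : ℝ) ^ (1 + ε) *
          (1 / (q : ℝ) + 1 / (N : ℝ) + (q : ℝ) / (N : ℝ) ^ k) ^ η

/-- the statement of the problem -/
def TheProblem : Prop :=
    ∀ k : ℕ, 2 ≤ k → ∀ ε : ℝ, 0 < ε → ∃ C : ℝ, 0 < C ∧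
      ∀ N : ℕ, 1 ≤ N → ∀ t ξ : ℝ, ∀ a q : ℕ,
        1 ≤ a → a < q → q ≤ N → Nat.Coprime a q →
        |t - (a : ℝ) / (q : ℝ)| ≤ 1 / (q : ℝ) ^ 2 →
        ‖∑ n ∈ Finset.Icc 1 N,
            Complex.exp (2 * (Real.pi : ℂ) * Complex.I *
              (((t * (n : ℝ) ^ k + ξ * (n : ℝ)) : ℝ) : ℂ))‖
          ≤ C * (N : ℝ) ^ (1 + ε) *
            (1 / (q : ℝ) + 1 / (N : ℝ) + (q : ℝ) / (N : ℝ) ^ k) ^ (1 / (k : ℝ))

/-- the law of the perturbations: independent, uniform in `[0,1]` -/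
structure Unif {Ω : Type} [MeasurableSpace Ω] (P : Measure Ω) (X : ℕ → Ω → ℝ) : Prop where
  meas : ∀ n, Measurable (X n)
  indep : iIndepFun X P
  law : ∀ n, P.map (X n) = (volume : Measure ℝ).restrict (Set.Icc 0 1)

theorem ae_mem {Ω : Type} [MeasurableSpace Ω] {P : Measure Ω} {X : ℕ → Ω → ℝ} (h : Unif P X) :
    ∀ᵐ ω ∂P, ∀ n, X n ω ∈ Set.Icc (0 : ℝ) 1 := by
  refine ae_all_iff.2 fun n => ?_
  have h1 : ((volume : Measure ℝ).restrict (Set.Icc 0 1)) (Set.Icc (0 : ℝ) 1)ᶜ = 0 := by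
    rw [Measure.restrict_apply measurableSet_Icc.compl]
    simp
  rw [← h.law n, Measure.map_apply (h.meas n) measurableSet_Icc.compl] at h1
  exact h1

theorem main {Ω : Type} [MeasurableSpace Ω] {P : Measure Ω} [IsProbabilityMeasure P] {X : ℕ → Ω → ℝ}
    (h : Unif P X) (δ : ℕ → ℝ) :
    ∀ᵐ ω ∂P, ∀ κ : ℝ, (∀ n : ℕ, 1 ≤ n → (n : ℝ) ^ (-κ) ≤ δ n ∧ δ n ≤ 1) → ∀ k : ℕ, 2 ≤ k → ∀ η : ℝ, 0 ≤ η →
      η ≤ 1 / 2 → 1 ≤ ((k : ℝ) - 1 - κ) * (1 - η) → HypH (fun n => (n : ℝ) + δ n * X n ω) k η := by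
  have h1 : ∀ᵐ ω ∂P, ∀ m B B' r : ℕ, ∀ᶠ N : ℕ in Filter.atTop,
      Pool.Agent.U803.MW.GdU δ (fun n => X n ω) (m + 2) B B' (1 / ((r : ℝ) + 1)) N := by
    simp only [ae_all_iff]
    intro m B B' r
    exact Pool.Agent.U803.MW.ae_GdU h.meas h.indep h.law δ (m + 2) B B' (by positivity)
  filter_upwards [h1, ae_mem h] with ω hω1 hω2
  intro κ hδ k hk η hη0 hη hκ
  obtain ⟨m, rfl⟩ : ∃ m, k = m + 2 := ⟨k - 2, by omega⟩
  have hκ' : 1 ≤ ((m : ℝ) + 1 - κ) * (1 - η) := by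
    push_cast at hκ
    rw [show (m : ℝ) + 1 - κ = (m : ℝ) + 2 - 1 - κ by ring]
    exact hκ
  intro A ε hε
  obtain ⟨C, hC, hfin⟩ := Pool.Agent.U803.MW.final hω2 hδ hη0 hη hκ' (hω1 m) A ε hε
  exact ⟨C, hC, fun N hN t ξ hξ a q ha haq hqN _ hta => hfin N hN t ξ hξ a q ha haq hqN hta⟩

theorem int_iff (k : ℕ) (η : ℝ) : HypH (fun n => (n : ℝ)) k η ↔ HypInt k η := by
  constructor
  · intro h ε hε
    obtain ⟨C, hC, h1⟩ := h 0 ε hε
    refine ⟨C, hC, fun N hN t ξ a q ha haq hqN hco hta => ?_⟩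
    have h2 := h1 N hN t (Int.fract ξ) (by
      rw [abs_of_nonneg (Int.fract_nonneg ξ), pow_zero]
      exact (Int.fract_lt_one ξ).le) a q ha haq hqN hco hta
    refine le_trans (le_of_eq ?_) h2
    congr 1
    refine Finset.sum_congr rfl fun n _ => ?_
    change Pool.Agent.U160.VP.ee (t * (n : ℝ) ^ k + ξ * n) =
      Pool.Agent.U160.VP.ee (t * (n : ℝ) ^ k + Int.fract ξ * n)
    have h3 : t * (n : ℝ) ^ k + ξ * n = (t * (n : ℝ) ^ k + Int.fract ξ * n) + ((⌊ξ⌋ * n : ℤ) : ℝ) := by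
      push_cast
      have := Int.floor_add_fract ξ
      calc t * (n : ℝ) ^ k + ξ * n = t * (n : ℝ) ^ k + (⌊ξ⌋ + Int.fract ξ) * n := by rw [this]
        _ = _ := by ring
    rw [h3, Pool.Agent.U160.VP.pkgD_ee_add, Pool.Agent.U160.VP.pkgD_ee_int, mul_one]
  · intro h A ε hε
    obtain ⟨C, hC, h1⟩ := h ε hε
    exact ⟨C, hC, fun N hN t ξ _ a q ha haq hqN hco hta => h1 N hN t ξ a q ha haq hqN hco hta⟩

/-- **Montgomery's conjecture for Weyl sums along vanishing random perturbations of the integers.** The `X n` are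
independent and uniform in `[0,1]`. (1) For every sequence `δ`, almost surely: for every `κ` with `n^(-κ) ≤ δ n ≤ 1`
(`n ≥ 1`), every `k ≥ 2` and every `0 ≤ η ≤ 1/2` with `(k - 1 - κ)(1 - η) ≥ 1` the hypothesis `H_k(η)` holds for the points
`n + δ n X n`. (2) Almost surely the points `n + X n / √n` satisfy `H_k(1/k)` for all `k ≥ 3`. (3) For every `k ≥ 3`
and `0 ≤ κ ≤ k - 2 - 1/(k-1)` the points `n + n^(-κ) X n` satisfy `H_k(1/k)` almost surely. (4) Such sequences `X`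
exist. (5) For the integers `H_k(η)` is the hypothesis of the problem, and `H_k(1/k)` for all `k ≥ 2` is the problem. -/
theorem result :
    (∀ (Ω : Type) [MeasurableSpace Ω] (P : Measure Ω) [IsProbabilityMeasure P] (X : ℕ → Ω → ℝ), Unif P X →
      (∀ δ : ℕ → ℝ, ∀ᵐ ω ∂P, ∀ κ : ℝ, (∀ n : ℕ, 1 ≤ n → (n : ℝ) ^ (-κ) ≤ δ n ∧ δ n ≤ 1) → ∀ k : ℕ, 2 ≤ k →
        ∀ η : ℝ, 0 ≤ η → η ≤ 1 / 2 → 1 ≤ ((k : ℝ) - 1 - κ) * (1 - η) →
        HypH (fun n => (n : ℝ) + δ n * X n ω) k η) ∧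
      (∀ᵐ ω ∂P, ∀ k : ℕ, 3 ≤ k → HypH (fun n => (n : ℝ) + (n : ℝ) ^ (-(1 / 2) : ℝ) * X n ω) k (1 / (k : ℝ))) ∧
      (∀ k : ℕ, 3 ≤ k → ∀ κ : ℝ, 0 ≤ κ → κ ≤ (k : ℝ) - 2 - 1 / ((k : ℝ) - 1) →
        ∀ᵐ ω ∂P, HypH (fun n => (n : ℝ) + (n : ℝ) ^ (-κ) * X n ω) k (1 / (k : ℝ)))) ∧
    (∃ (Ω : Type) (_ : MeasurableSpace Ω) (P : Measure Ω) (X : ℕ → Ω → ℝ), IsProbabilityMeasure P ∧ Unif P X) ∧
    ((∀ (k : ℕ) (η : ℝ), HypH (fun n => (n : ℝ)) k η ↔ HypInt k η) ∧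
      ((∀ k : ℕ, 2 ≤ k → HypH (fun n => (n : ℝ)) k (1 / (k : ℝ))) ↔ TheProblem)) := by
  have hpw : ∀ κ : ℝ, 0 ≤ κ → ∀ n : ℕ, 1 ≤ n → (n : ℝ) ^ (-κ) ≤ (n : ℝ) ^ (-κ) ∧ (n : ℝ) ^ (-κ) ≤ 1 := by
    intro κ hκ n hn
    refine ⟨le_rfl, ?_⟩
    exact Real.rpow_le_one_of_one_le_of_nonpos (by exact_mod_cast hn) (by linarith)
  refine ⟨fun Ω _ P _ X hX => ⟨fun δ => main hX δ, ?_, ?_⟩, ?_, int_iff, ?_⟩
  · filter_upwards [main hX (fun n => (n : ℝ) ^ (-(1 / 2) : ℝ))] with ω hω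
    intro k hk
    have hk3 : (3 : ℝ) ≤ k := by exact_mod_cast hk
    refine hω (1 / 2) (hpw (1 / 2) (by norm_num)) k (by omega) (1 / (k : ℝ)) (by positivity) ?_ ?_
    · exact one_div_le_one_div_of_le (by norm_num) (by linarith)
    · have h1 : ((k : ℝ) - 1 - 1 / 2) * (1 - 1 / (k : ℝ)) = ((k : ℝ) - 3 / 2) * ((k : ℝ) - 1) / k := by
        field_simp
        ring
      rw [h1, le_div_iff₀ (by linarith)]
      nlinarith
  · intro k hk κ hκ0 hκ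
    have hk3 : (3 : ℝ) ≤ k := by exact_mod_cast hk
    filter_upwards [main hX (fun n => (n : ℝ) ^ (-κ))] with ω hω
    refine hω κ (hpw κ hκ0) k (by omega) (1 / (k : ℝ)) (by positivity) ?_ ?_
    · exact one_div_le_one_div_of_le (by norm_num) (by linarith)
    · have hk1 : (0 : ℝ) < (k : ℝ) - 1 := by linarith
      have h1 : 1 + 1 / ((k : ℝ) - 1) ≤ (k : ℝ) - 1 - κ := by linarith
      have h2 : (1 + 1 / ((k : ℝ) - 1)) * (1 - 1 / (k : ℝ)) = 1 := by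
        field_simp
        ring
      have h3 : 0 ≤ 1 - 1 / (k : ℝ) := by
        rw [sub_nonneg, div_le_one (by linarith)]
        linarith
      calc (1 : ℝ) = (1 + 1 / ((k : ℝ) - 1)) * (1 - 1 / (k : ℝ)) := h2.symm
        _ ≤ _ := mul_le_mul_of_nonneg_right h1 h3
  · have hp : IsProbabilityMeasure ((volume : Measure ℝ).restrict (Set.Icc 0 1)) := by
      constructor
      simp
    obtain ⟨Ω, m, P, X, h1, h2, h3, h4⟩ := exists_iid ℕ ((volume : Measure ℝ).restrict (Set.Icc 0 1))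
    exact ⟨Ω, m, P, X, h4, h1, h3, fun n => (h2 n).map_eq⟩
  · constructor
    · intro h k hk
      exact (int_iff k _).1 (h k hk)
    · intro h k hk
      exact (int_iff k _).2 (h k hk)

end Pool.Agent.Results.MP_3b0be2_nt.VanishingPerturbations
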